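import Mathlib

/-!
Every partially ordered group whose order is the intersection of right orders embeds in a
lattice-ordered group so that all existing suprema and infima are preserved.
-/

namespace Pool.Agent.Results.MP_98d06d_al.SupInfPreservingEmbedding

universe u

/-- A right order on a group: a total order `r` with `r a b → r (a * c) (b * c)`. -/
structure IsRightOrder {G : Type*} [Group G] (r : G → G → Prop) : Prop where
  refl : ∀ a, r a a
  antisymm : ∀ a b, r a b → r b a → a = b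
  trans : ∀ a b c, r a b → r b c → r a c
  total : ∀ a b, r a b ∨ r b a
  mul_right : ∀ a b c, r a b → r (a * c) (b * c)

/-- The order of the partially ordered group `G` is the intersection of a family of right
orders. -/
def IsIntersectionOfRightOrders (G : Type*) [Group G] [PartialOrder G] : Prop :=
  ∃ F : Set (G → G → Prop), (∀ r ∈ F, IsRightOrder r) ∧
    ∀ a b : G, a ≤ b ↔ ∀ r ∈ F, r a b

section LIdeal

variable {L : Type u} [Group L] [Lattice L] [MulLeftMono L] [MulRightMono L]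

/-- An `ℓ`-ideal: a normal subgroup which is convex and closed under joins with `1`. -/
structure IsLIdeal (J : Subgroup L) : Prop where
  conj : ∀ a h : L, a ∈ J → h⁻¹ * a * h ∈ J
  conv : ∀ a b : L, a ∈ J → 1 ≤ b → b ≤ a → b ∈ J
  sup : ∀ a : L, a ∈ J → a ⊔ 1 ∈ J

variable {J : Subgroup L}

theorem IsLIdeal.between (hJ : IsLIdeal J) {a b c : L} (ha : a ∈ J) (hc : c ∈ J)
    (hab : a ≤ b) (hbc : b ≤ c) : b ∈ J := by
  have h1 : a⁻¹ * b ∈ J := by
    apply hJ.conv (a⁻¹ * c) (a⁻¹ * b) (J.mul_mem (J.inv_mem ha) hc)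
    · rw [← inv_mul_cancel a]
      exact mul_le_mul_right hab _
    · exact mul_le_mul_right hbc _
  have := J.mul_mem ha h1
  rwa [mul_inv_cancel_left] at this

theorem IsLIdeal.sup_mem (hJ : IsLIdeal J) {a b : L} (ha : a ∈ J) (hb : b ∈ J) : a ⊔ b ∈ J := by
  have h1 : (1 : L) ≤ a ⊔ 1 := le_sup_right
  have h2 : (1 : L) ≤ b ⊔ 1 := le_sup_right
  refine hJ.between ha (J.mul_mem (hJ.sup a ha) (hJ.sup b hb)) le_sup_left (sup_le ?_ ?_)
  · calc a ≤ a ⊔ 1 := le_sup_left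
      _ = (a ⊔ 1) * 1 := (mul_one _).symm
      _ ≤ (a ⊔ 1) * (b ⊔ 1) := mul_le_mul_right h2 _
  · calc b ≤ b ⊔ 1 := le_sup_left
      _ = 1 * (b ⊔ 1) := (one_mul _).symm
      _ ≤ (a ⊔ 1) * (b ⊔ 1) := mul_le_mul_left h1 _

/-- The quotient relation. -/
def qle (J : Subgroup L) (x y : L ⧸ J) : Prop :=
  ∃ a b : L, (QuotientGroup.mk a : L ⧸ J) = x ∧ (QuotientGroup.mk b : L ⧸ J) = y ∧ a ≤ b

theorem qle_mk (J : Subgroup L) (a b : L) :
    qle J (QuotientGroup.mk a) (QuotientGroup.mk b) ↔ ∃ j ∈ J, a ≤ b * j := by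
  constructor
  · rintro ⟨a', b', ha, hb, hle⟩
    have h1 : a'⁻¹ * a ∈ J := QuotientGroup.eq.1 ha
    have h2 : b⁻¹ * b' ∈ J := by
      have := QuotientGroup.eq.1 hb.symm
      exact this
    refine ⟨b⁻¹ * b' * (a'⁻¹ * a), J.mul_mem h2 h1, ?_⟩
    calc a = a' * (a'⁻¹ * a) := by group
      _ ≤ b' * (a'⁻¹ * a) := mul_le_mul_left hle _
      _ = b * (b⁻¹ * b' * (a'⁻¹ * a)) := by group
  · rintro ⟨j, hj, hle⟩
    refine ⟨a, b * j, rfl, ?_, hle⟩
    rw [QuotientGroup.eq]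
    have : (b * j)⁻¹ * b = j⁻¹ := by group
    rw [this]
    exact J.inv_mem hj

/-- The quotient lattice. -/
@[reducible]
noncomputable def qLattice (hJ : IsLIdeal J) : Lattice (L ⧸ J) :=
  { le := qle J
    le_refl := fun x => by
      induction x using QuotientGroup.induction_on with
      | H a => exact (qle_mk J a a).2 ⟨1, J.one_mem, by rw [mul_one]⟩
    le_trans := fun x y z => by
      induction x using QuotientGroup.induction_on with
      | H a =>
      induction y using QuotientGroup.induction_on with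
      | H b =>
      induction z using QuotientGroup.induction_on with
      | H c =>
      intro h1 h2
      obtain ⟨j, hj, h1⟩ := (qle_mk J a b).1 h1
      obtain ⟨k, hk, h2⟩ := (qle_mk J b c).1 h2
      refine (qle_mk J a c).2 ⟨k * j, J.mul_mem hk hj, ?_⟩
      calc a ≤ b * j := h1
        _ ≤ c * k * j := mul_le_mul_left h2 _
        _ = c * (k * j) := mul_assoc _ _ _
    le_antisymm := fun x y => by
      induction x using QuotientGroup.induction_on with
      | H a =>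
      induction y using QuotientGroup.induction_on with
      | H b =>
      intro h1 h2
      obtain ⟨j, hj, h1⟩ := (qle_mk J a b).1 h1
      obtain ⟨k, hk, h2⟩ := (qle_mk J b a).1 h2
      rw [QuotientGroup.eq]
      refine hJ.between (J.inv_mem hj) hk ?_ ?_
      · have := mul_le_mul_right h1 a⁻¹
        rw [inv_mul_cancel] at this
        have h3 := mul_le_mul_left this j⁻¹
        rw [one_mul] at h3
        calc j⁻¹ ≤ a⁻¹ * (b * j) * j⁻¹ := h3
          _ = a⁻¹ * b := by group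
      · have := mul_le_mul_right h2 a⁻¹
        calc a⁻¹ * b ≤ a⁻¹ * (a * k) := this
          _ = k := by group
    sup := fun x y => QuotientGroup.mk (x.out ⊔ y.out)
    inf := fun x y => QuotientGroup.mk (x.out ⊓ y.out)
    le_sup_left := fun x y => ⟨x.out, x.out ⊔ y.out, QuotientGroup.out_eq' x, rfl, le_sup_left⟩
    le_sup_right := fun x y => ⟨y.out, x.out ⊔ y.out, QuotientGroup.out_eq' y, rfl, le_sup_right⟩
    inf_le_left := fun x y => ⟨x.out ⊓ y.out, x.out, rfl, QuotientGroup.out_eq' x, inf_le_left⟩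
    inf_le_right := fun x y => ⟨x.out ⊓ y.out, y.out, rfl, QuotientGroup.out_eq' y, inf_le_right⟩
    sup_le := fun x y z h1 h2 => by
      obtain ⟨a, ha⟩ : ∃ a, a = x.out := ⟨_, rfl⟩
      obtain ⟨b, hb⟩ : ∃ b, b = y.out := ⟨_, rfl⟩
      obtain ⟨c, hc⟩ : ∃ c, c = z.out := ⟨_, rfl⟩
      have ex : (QuotientGroup.mk a : L ⧸ J) = x := by rw [ha]; exact QuotientGroup.out_eq' x
      have ey : (QuotientGroup.mk b : L ⧸ J) = y := by rw [hb]; exact QuotientGroup.out_eq' y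
      have ez : (QuotientGroup.mk c : L ⧸ J) = z := by rw [hc]; exact QuotientGroup.out_eq' z
      change qle J (QuotientGroup.mk (x.out ⊔ y.out)) z
      rw [← ha, ← hb]
      have h1' : qle J x z := h1
      have h2' : qle J y z := h2
      rw [← ex, ← ez, qle_mk] at h1'
      rw [← ey, ← ez, qle_mk] at h2'
      rw [← ez, qle_mk]
      obtain ⟨j, hj, h1⟩ := h1'
      obtain ⟨k, hk, h2⟩ := h2'
      refine ⟨j ⊔ k, hJ.sup_mem hj hk, sup_le (h1.trans ?_) (h2.trans ?_)⟩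
      · exact mul_le_mul_right le_sup_left _
      · exact mul_le_mul_right le_sup_right _
    le_inf := fun x y z h1 h2 => by
      obtain ⟨a, ha⟩ : ∃ a, a = x.out := ⟨_, rfl⟩
      obtain ⟨b, hb⟩ : ∃ b, b = y.out := ⟨_, rfl⟩
      obtain ⟨c, hc⟩ : ∃ c, c = z.out := ⟨_, rfl⟩
      have ex : (QuotientGroup.mk a : L ⧸ J) = x := by rw [ha]; exact QuotientGroup.out_eq' x
      have ey : (QuotientGroup.mk b : L ⧸ J) = y := by rw [hb]; exact QuotientGroup.out_eq' y
      have ez : (QuotientGroup.mk c : L ⧸ J) = z := by rw [hc]; exact QuotientGroup.out_eq' z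
      change qle J x (QuotientGroup.mk (y.out ⊓ z.out))
      rw [← hb, ← hc]
      have h1' : qle J x y := h1
      have h2' : qle J x z := h2
      rw [← ex, ← ey, qle_mk] at h1'
      rw [← ex, ← ez, qle_mk] at h2'
      rw [← ex, qle_mk]
      obtain ⟨j, hj, h1⟩ := h1'
      obtain ⟨k, hk, h2⟩ := h2'
      refine ⟨j ⊔ k, hJ.sup_mem hj hk, ?_⟩
      have h3 : a * (j ⊔ k)⁻¹ ≤ b := by
        have : a ≤ b * (j ⊔ k) := h1.trans (mul_le_mul_right le_sup_left _)
        have h4 := mul_le_mul_left this (j ⊔ k)⁻¹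
        rwa [mul_inv_cancel_right] at h4
      have h3' : a * (j ⊔ k)⁻¹ ≤ c := by
        have : a ≤ c * (j ⊔ k) := h2.trans (mul_le_mul_right le_sup_right _)
        have h4 := mul_le_mul_left this (j ⊔ k)⁻¹
        rwa [mul_inv_cancel_right] at h4
      have h5 := mul_le_mul_left (le_inf h3 h3') (j ⊔ k)
      rwa [inv_mul_cancel_right] at h5 }

end LIdeal

section Zorn

variable {G : Type u} [Group G]
variable {L : Type u} [Group L] [Lattice L] [MulLeftMono L] [MulRightMono L]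

/-- Conjugation by `h` is dominated by finitely many conjugations by elements of the image of
`G`. -/
def Dom (φ : G →* L) (h : L) : Prop :=
  ∃ l : List G, ∀ x : L, 1 ≤ x → h⁻¹ * x * h ≤ (l.map fun g => (φ g)⁻¹ * x * φ g).prod

theorem one_le_conj {x : L} (hx : 1 ≤ x) (h : L) : 1 ≤ h⁻¹ * x * h := by
  have h1 := mul_le_mul_right hx h⁻¹
  have h2 := mul_le_mul_left h1 h
  calc (1 : L) = h⁻¹ * 1 * h := by group
    _ ≤ h⁻¹ * x * h := h2

theorem conj_le_conj {x y : L} (hxy : x ≤ y) (h : L) : h⁻¹ * x * h ≤ h⁻¹ * y * h :=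
  mul_le_mul_left (mul_le_mul_right hxy _) _

theorem mul_le_mul'' {a b c d : L} (h1 : a ≤ b) (h2 : c ≤ d) : a * c ≤ b * d :=
  (mul_le_mul_left h1 c).trans (mul_le_mul_right h2 b)

theorem sup_le_mul {x y : L} (hx : 1 ≤ x) (hy : 1 ≤ y) : x ⊔ y ≤ x * y := by
  refine sup_le ?_ ?_
  · calc x = x * 1 := (mul_one x).symm
      _ ≤ x * y := mul_le_mul_right hy x
  · calc y = 1 * y := (one_mul y).symm
      _ ≤ x * y := mul_le_mul_left hx y

theorem one_le_list_prod {l : List L} (hl : ∀ x ∈ l, 1 ≤ x) : 1 ≤ l.prod := by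
  induction l with
  | nil => simp
  | cons a t ih =>
    rw [List.prod_cons]
    calc (1 : L) = 1 * 1 := (mul_one 1).symm
      _ ≤ a * t.prod := mul_le_mul'' (hl a (by simp)) (ih fun x hx => hl x (by simp [hx]))

theorem Dom.base (φ : G →* L) (g : G) : Dom φ (φ g) :=
  ⟨[g], fun x _ => by simp⟩

theorem list_conj_le (φ : G →* L) {k : L} (l' : List G)
    (hk : ∀ x : L, 1 ≤ x → k⁻¹ * x * k ≤ (l'.map fun g => (φ g)⁻¹ * x * φ g).prod)
    (l : List G) (x : L) (hx : 1 ≤ x) :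
    k⁻¹ * (l.map fun g => (φ g)⁻¹ * x * φ g).prod * k ≤
      ((l.flatMap fun g => l'.map fun g' => g * g').map fun g => (φ g)⁻¹ * x * φ g).prod := by
  induction l with
  | nil => simp
  | cons a t ih =>
    rw [List.map_cons, List.prod_cons, List.flatMap_cons, List.map_append, List.prod_append]
    calc k⁻¹ * ((φ a)⁻¹ * x * φ a * (t.map fun g => (φ g)⁻¹ * x * φ g).prod) * k
        = (k⁻¹ * ((φ a)⁻¹ * x * φ a) * k) *
          (k⁻¹ * (t.map fun g => (φ g)⁻¹ * x * φ g).prod * k) := by group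
      _ ≤ _ := mul_le_mul'' ?_ ih
    refine (hk _ (one_le_conj hx (φ a))).trans (le_of_eq ?_)
    rw [List.map_map]
    congr 1
    apply List.map_congr_left
    intro g _
    simp only [Function.comp_apply, map_mul]
    group

theorem Dom.mul {φ : G →* L} {h k : L} (hh : Dom φ h) (hk : Dom φ k) : Dom φ (h * k) := by
  obtain ⟨l, hl⟩ := hh
  obtain ⟨l', hl'⟩ := hk
  refine ⟨l.flatMap fun g => l'.map fun g' => g * g', fun x hx => ?_⟩
  calc (h * k)⁻¹ * x * (h * k) = k⁻¹ * (h⁻¹ * x * h) * k := by group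
    _ ≤ k⁻¹ * (l.map fun g => (φ g)⁻¹ * x * φ g).prod * k := conj_le_conj (hl x hx) k
    _ ≤ _ := list_conj_le φ l' hl' l x hx

theorem conj_sup_le (h k x : L) :
    (h ⊔ k)⁻¹ * x * (h ⊔ k) ≤ h⁻¹ * x * h ⊔ k⁻¹ * x * k := by
  have e : (h ⊔ k)⁻¹ * x * (h ⊔ k) = (h ⊔ k)⁻¹ * x * h ⊔ (h ⊔ k)⁻¹ * x * k := by
    rw [mul_sup]
  rw [e]
  refine sup_le_sup ?_ ?_
  · exact mul_le_mul_left (mul_le_mul_left (inv_le_inv_iff.2 le_sup_left) _) _
  · exact mul_le_mul_left (mul_le_mul_left (inv_le_inv_iff.2 le_sup_right) _) _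

theorem conj_inf_le (h k x : L) :
    (h ⊓ k)⁻¹ * x * (h ⊓ k) ≤ h⁻¹ * x * h ⊔ k⁻¹ * x * k := by
  have e : (h ⊓ k)⁻¹ * x * (h ⊓ k) = h⁻¹ * x * (h ⊓ k) ⊔ k⁻¹ * x * (h ⊓ k) := by
    rw [inv_inf, sup_mul, sup_mul]
  rw [e]
  refine sup_le_sup ?_ ?_
  · exact mul_le_mul_right inf_le_left _
  · exact mul_le_mul_right inf_le_right _

theorem Dom.of_le {φ : G →* L} {h k m : L} (hh : Dom φ h) (hk : Dom φ k)
    (hm : ∀ x : L, m⁻¹ * x * m ≤ h⁻¹ * x * h ⊔ k⁻¹ * x * k) : Dom φ m := by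
  obtain ⟨l, hl⟩ := hh
  obtain ⟨l', hl'⟩ := hk
  refine ⟨l ++ l', fun x hx => ?_⟩
  rw [List.map_append, List.prod_append]
  refine (hm x).trans (((sup_le_sup (hl x hx) (hl' x hx))).trans (sup_le_mul ?_ ?_))
  · apply one_le_list_prod
    intro y hy
    obtain ⟨g, _, rfl⟩ := List.mem_map.1 hy
    exact one_le_conj hx _
  · apply one_le_list_prod
    intro y hy
    obtain ⟨g, _, rfl⟩ := List.mem_map.1 hy
    exact one_le_conj hx _

/-- The elements `h` such that conjugation by `h` and by `h⁻¹` is dominated. This contains the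
sublattice subgroup generated by the image of `G`. -/
def domSubgroup (φ : G →* L) : Subgroup L where
  carrier := {h | Dom φ h ∧ Dom φ h⁻¹}
  one_mem' := by
    have h1 : Dom φ (1 : L) := by rw [← map_one φ]; exact Dom.base φ 1
    exact ⟨h1, by rw [inv_one]; exact h1⟩
  mul_mem' := by
    rintro a b ⟨h1, h2⟩ ⟨h3, h4⟩
    exact ⟨h1.mul h3, by rw [mul_inv_rev]; exact h4.mul h2⟩
  inv_mem' := by
    rintro a ⟨h1, h2⟩
    exact ⟨h2, by rw [inv_inv]; exact h1⟩

theorem domSubgroup_sup (φ : G →* L) {a b : L} (ha : a ∈ domSubgroup φ)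
    (hb : b ∈ domSubgroup φ) : a ⊔ b ∈ domSubgroup φ :=
  ⟨ha.1.of_le hb.1 (conj_sup_le a b), by
    rw [inv_sup]; exact ha.2.of_le hb.2 (conj_inf_le _ _)⟩

theorem domSubgroup_inf (φ : G →* L) {a b : L} (ha : a ∈ domSubgroup φ)
    (hb : b ∈ domSubgroup φ) : a ⊓ b ∈ domSubgroup φ :=
  ⟨ha.1.of_le hb.1 (conj_inf_le a b), by
    rw [inv_inf]; exact ha.2.of_le hb.2 (conj_sup_le _ _)⟩

end Zorn

section Embedding

variable {G : Type u} [Group G] [PartialOrder G] [MulLeftMono G] [MulRightMono G]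
variable {L : Type u} [Group L] [Lattice L] [MulLeftMono L] [MulRightMono L]

/-- `z` is, modulo `J`, below all members of a subset of `G` with infimum `1`. -/
def Small (φ : G →* L) (J : Subgroup L) (z : L) : Prop :=
  ∃ B : Set G, IsGLB B 1 ∧ ∀ b ∈ B, ∃ j ∈ J, z ≤ φ b * j

variable {φ : G →* L} {J : Subgroup L}

theorem Small.mono {z w : L} (h : Small φ J w) (hzw : z ≤ w) : Small φ J z := by
  obtain ⟨B, hB, h⟩ := h
  refine ⟨B, hB, fun b hb => ?_⟩
  obtain ⟨j, hj, hw⟩ := h b hb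
  exact ⟨j, hj, hzw.trans hw⟩

theorem Small.of_mem {z : L} (hz : z ∈ J) : Small φ J z :=
  ⟨{1}, isGLB_singleton, fun b hb => ⟨z, hz, by
    rw [Set.mem_singleton_iff.1 hb, map_one, one_mul]⟩⟩

theorem isGLB_mul {B C : Set G} (hB : IsGLB B 1) (hC : IsGLB C 1) :
    IsGLB {x | ∃ b ∈ B, ∃ c ∈ C, x = b * c} (1 : G) := by
  constructor
  · rintro _ ⟨b, hb, c, hc, rfl⟩
    have h1 : (1 : G) ≤ b := hB.1 hb
    have h2 : (1 : G) ≤ c := hC.1 hc
    calc (1 : G) ≤ b := h1
      _ = b * 1 := (mul_one b).symm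
      _ ≤ b * c := mul_le_mul_right h2 b
  · intro l hl
    apply hC.2
    intro c hc
    have h1 : l * c⁻¹ ≤ 1 := by
      apply hB.2
      intro b hb
      have h2 : l ≤ b * c := hl ⟨b, hb, c, hc, rfl⟩
      have h3 := mul_le_mul_left h2 c⁻¹
      rwa [mul_inv_cancel_right] at h3
    have h4 := mul_le_mul_left h1 c
    rwa [inv_mul_cancel_right, one_mul] at h4

theorem Small.mul (hJ : IsLIdeal J) {z w : L} (hz : Small φ J z) (hw : Small φ J w) :
    Small φ J (z * w) := by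
  obtain ⟨B, hB, h1⟩ := hz
  obtain ⟨C, hC, h2⟩ := hw
  refine ⟨_, isGLB_mul hB hC, ?_⟩
  rintro _ ⟨b, hb, c, hc, rfl⟩
  obtain ⟨j, hj, hjz⟩ := h1 b hb
  obtain ⟨k, hk, hkw⟩ := h2 c hc
  refine ⟨(φ c)⁻¹ * j * φ c * k, J.mul_mem (hJ.conj j (φ c) hj) hk, ?_⟩
  calc z * w ≤ (φ b * j) * (φ c * k) := mul_le_mul'' hjz hkw
    _ = φ (b * c) * ((φ c)⁻¹ * j * φ c * k) := by rw [map_mul]; group

theorem Small.conj_base (hJ : IsLIdeal J) {z : L} (hz : Small φ J z) (g : G) :
    Small φ J ((φ g)⁻¹ * z * φ g) := by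
  obtain ⟨B, hB, h1⟩ := hz
  refine ⟨{x | ∃ b ∈ B, x = g⁻¹ * b * g}, ⟨?_, ?_⟩, ?_⟩
  · rintro _ ⟨b, hb, rfl⟩
    have h2 : (1 : G) ≤ b := hB.1 hb
    have h3 := mul_le_mul_left (mul_le_mul_right h2 g⁻¹) g
    calc (1 : G) = g⁻¹ * 1 * g := by group
      _ ≤ g⁻¹ * b * g := h3
  · intro l hl
    have h4 : g * l * g⁻¹ ≤ 1 := by
      apply hB.2
      intro b hb
      have h5 : l ≤ g⁻¹ * b * g := hl ⟨b, hb, rfl⟩
      have h6 := mul_le_mul_left (mul_le_mul_right h5 g) g⁻¹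
      calc g * l * g⁻¹ ≤ g * (g⁻¹ * b * g) * g⁻¹ := h6
        _ = b := by group
    have h7 := mul_le_mul_left (mul_le_mul_right h4 g⁻¹) g
    calc l = g⁻¹ * (g * l * g⁻¹) * g := by group
      _ ≤ g⁻¹ * 1 * g := h7
      _ = 1 := by group
  · rintro _ ⟨b, hb, rfl⟩
    obtain ⟨j, hj, hjz⟩ := h1 b hb
    refine ⟨(φ g)⁻¹ * j * φ g, hJ.conj j _ hj, ?_⟩
    calc (φ g)⁻¹ * z * φ g ≤ (φ g)⁻¹ * (φ b * j) * φ g := conj_le_conj hjz _
      _ = φ (g⁻¹ * b * g) * ((φ g)⁻¹ * j * φ g) := by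
        rw [map_mul, map_mul, map_inv]; group

theorem Small.list_prod (hJ : IsLIdeal J) (l : List L) (hl : ∀ z ∈ l, Small φ J z) :
    Small φ J l.prod := by
  induction l with
  | nil => exact Small.of_mem J.one_mem
  | cons a t ih =>
    rw [List.prod_cons]
    exact (hl a (by simp)).mul hJ (ih fun z hz => hl z (by simp [hz]))

theorem Small.conj (hJ : IsLIdeal J) (hd : ∀ h : L, Dom φ h) {z : L} (hz1 : 1 ≤ z)
    (hz : Small φ J z) (h : L) : Small φ J (h⁻¹ * z * h) := by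
  obtain ⟨l, hl⟩ := hd h
  refine Small.mono (Small.list_prod hJ _ ?_) (hl z hz1)
  intro y hy
  obtain ⟨g, _, rfl⟩ := List.mem_map.1 hy
  exact hz.conj_base hJ g

/-- The enlarged `ℓ`-ideal. -/
def bigger (φ : G →* L) (J : Subgroup L) (hJ : IsLIdeal J) : Subgroup L where
  carrier := {b | ∃ z : L, 1 ≤ z ∧ Small φ J z ∧ b ≤ z ∧ b⁻¹ ≤ z}
  one_mem' := ⟨1, le_rfl, Small.of_mem J.one_mem, le_rfl, by rw [inv_one]⟩
  mul_mem' := by
    rintro b c ⟨z, hz1, hz, h1, h2⟩ ⟨w, hw1, hw, h3, h4⟩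
    have a1 : 1 ≤ z * w := by
      calc (1 : L) = 1 * 1 := (mul_one 1).symm
        _ ≤ z * w := mul_le_mul'' hz1 hw1
    have a2 : 1 ≤ w * z := by
      calc (1 : L) = 1 * 1 := (mul_one 1).symm
        _ ≤ w * z := mul_le_mul'' hw1 hz1
    refine ⟨(z * w) * (w * z), ?_, (hz.mul hJ hw).mul hJ (hw.mul hJ hz), ?_, ?_⟩
    · calc (1 : L) = 1 * 1 := (mul_one 1).symm
        _ ≤ _ := mul_le_mul'' a1 a2
    · calc b * c ≤ z * w := mul_le_mul'' h1 h3
        _ = z * w * 1 := (mul_one _).symm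
        _ ≤ _ := mul_le_mul_right a2 _
    · rw [mul_inv_rev]
      calc c⁻¹ * b⁻¹ ≤ w * z := mul_le_mul'' h4 h2
        _ = 1 * (w * z) := (one_mul _).symm
        _ ≤ _ := mul_le_mul_left a1 _
  inv_mem' := by
    rintro b ⟨z, hz1, hz, h1, h2⟩
    exact ⟨z, hz1, hz, h2, by rw [inv_inv]; exact h1⟩

theorem bigger_isLIdeal (hJ : IsLIdeal J) (hd : ∀ h : L, Dom φ h) :
    IsLIdeal (bigger φ J hJ) where
  conj := by
    rintro a h ⟨z, hz1, hz, h1, h2⟩
    refine ⟨h⁻¹ * z * h, one_le_conj hz1 h, hz.conj hJ hd hz1 h, conj_le_conj h1 h, ?_⟩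
    have e : (h⁻¹ * a * h)⁻¹ = h⁻¹ * a⁻¹ * h := by group
    rw [e]
    exact conj_le_conj h2 h
  conv := by
    rintro a b ⟨z, hz1, hz, h1, h2⟩ hb hba
    exact ⟨z, hz1, hz, hba.trans h1, (inv_le_one'.2 hb).trans hz1⟩
  sup := by
    rintro a ⟨z, hz1, hz, h1, h2⟩
    exact ⟨z, hz1, hz, sup_le h1 hz1, (inv_le_one'.2 le_sup_right).trans hz1⟩

/-- The family of `ℓ`-ideals `J` for which `G → L / J` is still an order-embedding. -/
def Good (φ : G →* L) (J : Subgroup L) : Prop :=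
  IsLIdeal J ∧ ∀ g : G, ∀ j ∈ J, φ g ≤ j → g ≤ 1

theorem bigger_good (hφ : Good φ J) (hd : ∀ h : L, Dom φ h) : Good φ (bigger φ J hφ.1) := by
  refine ⟨bigger_isLIdeal hφ.1 hd, ?_⟩
  rintro g j ⟨z, hz1, ⟨B, hB, hz⟩, h1, h2⟩ hg
  apply hB.2
  intro b hb
  obtain ⟨k, hk, hzk⟩ := hz b hb
  have h3 : φ g ≤ φ b * k := (hg.trans h1).trans hzk
  have h4 : φ (b⁻¹ * g) ≤ k := by
    have := mul_le_mul_right h3 (φ b)⁻¹
    rw [inv_mul_cancel_left] at this
    rwa [map_mul, map_inv]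
  have h5 : b⁻¹ * g ≤ 1 := hφ.2 _ k hk h4
  have h6 := mul_le_mul_right h5 b
  rwa [mul_inv_cancel_left, mul_one] at h6

theorem le_bigger (hJ : IsLIdeal J) : J ≤ bigger φ J hJ := by
  intro j hj
  have h1 : j ⊔ 1 ∈ J := hJ.sup j hj
  have h2 : j⁻¹ ⊔ 1 ∈ J := hJ.sup _ (J.inv_mem hj)
  have e1 : (1 : L) ≤ j ⊔ 1 := le_sup_right
  have e2 : (1 : L) ≤ j⁻¹ ⊔ 1 := le_sup_right
  refine ⟨(j ⊔ 1) * (j⁻¹ ⊔ 1), ?_, Small.of_mem (J.mul_mem h1 h2), ?_, ?_⟩
  · calc (1 : L) = 1 * 1 := (mul_one 1).symm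
      _ ≤ _ := mul_le_mul'' e1 e2
  · calc j ≤ j ⊔ 1 := le_sup_left
      _ = (j ⊔ 1) * 1 := (mul_one _).symm
      _ ≤ _ := mul_le_mul_right e2 _
  · calc j⁻¹ ≤ j⁻¹ ⊔ 1 := le_sup_left
      _ = 1 * (j⁻¹ ⊔ 1) := (one_mul _).symm
      _ ≤ _ := mul_le_mul_left e1 _

theorem exists_maximal_good (φ : G →* L) (hφ : ∀ a b : G, φ a ≤ φ b ↔ a ≤ b) :
    ∃ J : Subgroup L, Maximal (Good φ) J := by
  have hbot : Good φ (⊥ : Subgroup L) := by
    refine ⟨⟨?_, ?_, ?_⟩, ?_⟩
    · intro a h ha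
      rw [Subgroup.mem_bot] at ha ⊢
      rw [ha]; group
    · intro a b ha h1 h2
      rw [Subgroup.mem_bot] at ha ⊢
      rw [ha] at h2
      exact le_antisymm h2 h1
    · intro a ha
      rw [Subgroup.mem_bot] at ha ⊢
      rw [ha, sup_idem]
    · intro g j hj h
      rw [Subgroup.mem_bot] at hj
      rw [hj, ← map_one φ] at h
      exact (hφ _ _).1 h
  obtain ⟨J, _, hJ⟩ := zorn_le_nonempty₀ {J : Subgroup L | Good φ J} (by
    intro c hc hchain y hy
    have hne : c.Nonempty := ⟨y, hy⟩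
    have hmem : ∀ x, x ∈ sSup c ↔ ∃ s ∈ c, x ∈ s := fun x =>
      Subgroup.mem_sSup_of_directedOn hne hchain.directedOn
    refine ⟨sSup c, ⟨⟨?_, ?_, ?_⟩, ?_⟩, fun z hz => le_sSup hz⟩
    · intro a h ha
      obtain ⟨s, hs, has⟩ := (hmem a).1 ha
      exact (hmem _).2 ⟨s, hs, (hc hs).1.conj a h has⟩
    · intro a b ha h1 h2
      obtain ⟨s, hs, has⟩ := (hmem a).1 ha
      exact (hmem _).2 ⟨s, hs, (hc hs).1.conv a b has h1 h2⟩
    · intro a ha
      obtain ⟨s, hs, has⟩ := (hmem a).1 ha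
      exact (hmem _).2 ⟨s, hs, (hc hs).1.sup a has⟩
    · intro g j hj h
      obtain ⟨s, hs, has⟩ := (hmem j).1 hj
      exact (hc hs).2 g j has h) ⊥ hbot
  exact ⟨J, hJ⟩

theorem isGLB_inv_mul {S : Set G} {s : G} (hs : IsLUB S s) :
    IsGLB {x | ∃ a ∈ S, x = a⁻¹ * s} (1 : G) := by
  constructor
  · rintro _ ⟨a, ha, rfl⟩
    have h1 : a ≤ s := hs.1 ha
    have h2 := mul_le_mul_right h1 a⁻¹
    rwa [inv_mul_cancel] at h2
  · intro l hl
    have h1 : s ≤ s * l⁻¹ := by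
      apply hs.2
      intro a ha
      have h2 : l ≤ a⁻¹ * s := hl ⟨a, ha, rfl⟩
      have h3 := mul_le_mul_left (mul_le_mul_right h2 a) l⁻¹
      rwa [mul_inv_cancel_left, mul_inv_cancel_right] at h3
    have h4 := mul_le_mul_left (mul_le_mul_right h1 s⁻¹) l
    have e1 : s⁻¹ * s * l = l := by group
    have e2 : s⁻¹ * (s * l⁻¹) * l = 1 := by group
    rwa [e1, e2] at h4

theorem sup_preserved (hφ : ∀ a b : G, φ a ≤ φ b ↔ a ≤ b) (hd : ∀ h : L, Dom φ h) (hJ : Maximal (Good φ) J) {S : Set G} {s : G}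
    (hs : IsLUB S s) (f : L) (hf : ∀ a ∈ S, ∃ j ∈ J, φ a ≤ f * j) :
    ∃ j ∈ J, φ s ≤ f * j := by
  have hid : IsLIdeal J := hJ.prop.1
  have hle : bigger φ J hid ≤ J := hJ.le_of_ge (bigger_good hJ.prop hd) (le_bigger hid)
  have hy : (f⁻¹ * φ s) ⊔ 1 ∈ bigger φ J hid := by
    have hy1 : (1 : L) ≤ (f⁻¹ * φ s) ⊔ 1 := le_sup_right
    refine ⟨(f⁻¹ * φ s) ⊔ 1, hy1, ⟨_, isGLB_inv_mul hs, ?_⟩, le_rfl,
      (inv_le_one'.2 hy1).trans hy1⟩
    rintro _ ⟨a, ha, rfl⟩
    obtain ⟨j, hj, hja⟩ := hf a ha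
    have h1 : f⁻¹ * φ a ≤ j := by
      have := mul_le_mul_right hja f⁻¹
      rwa [inv_mul_cancel_left] at this
    have hj1 : (1 : L) ≤ j ⊔ 1 := le_sup_right
    have has : (1 : L) ≤ φ (a⁻¹ * s) := by
      have h2 : (1 : G) ≤ a⁻¹ * s := (isGLB_inv_mul hs).1 ⟨a, ha, rfl⟩
      rw [← map_one φ]
      exact (hφ _ _).2 h2
    refine ⟨(φ (a⁻¹ * s))⁻¹ * (j ⊔ 1) * φ (a⁻¹ * s), hid.conj _ _ (hid.sup j hj), ?_⟩
    have e : φ (a⁻¹ * s) * ((φ (a⁻¹ * s))⁻¹ * (j ⊔ 1) * φ (a⁻¹ * s)) =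
        (j ⊔ 1) * φ (a⁻¹ * s) := by group
    rw [e]
    refine sup_le ?_ ?_
    · calc f⁻¹ * φ s = (f⁻¹ * φ a) * φ (a⁻¹ * s) := by rw [map_mul, map_inv]; group
        _ ≤ j * φ (a⁻¹ * s) := mul_le_mul_left h1 _
        _ ≤ (j ⊔ 1) * φ (a⁻¹ * s) := mul_le_mul_left le_sup_left _
    · calc (1 : L) = 1 * 1 := (mul_one 1).symm
        _ ≤ _ := mul_le_mul'' hj1 has
  refine ⟨(f⁻¹ * φ s) ⊔ 1, hle hy, ?_⟩
  calc φ s = f * (f⁻¹ * φ s) := by group
    _ ≤ _ := mul_le_mul_right le_sup_left _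

/-- The conclusion of the main theorem. -/
def HasPreservingEmbedding (G : Type u) [Group G] [PartialOrder G] : Prop :=
  ∃ (H : Type u) (_ : Group H) (_ : Lattice H) (_ : MulLeftMono H) (_ : MulRightMono H)
    (ψ : G →* H), Function.Injective ψ ∧ (∀ a b : G, ψ a ≤ ψ b ↔ a ≤ b) ∧
      (∀ (S : Set G) (s : G), IsLUB S s → IsLUB (ψ '' S) (ψ s)) ∧
      (∀ (S : Set G) (s : G), IsGLB S s → IsGLB (ψ '' S) (ψ s))

theorem hasPreservingEmbedding_of_dom (hφ : ∀ a b : G, φ a ≤ φ b ↔ a ≤ b)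
    (hd : ∀ h : L, Dom φ h) : HasPreservingEmbedding G := by
  obtain ⟨J, hJ⟩ := exists_maximal_good φ hφ
  have hid : IsLIdeal J := hJ.prop.1
  have hn : J.Normal := ⟨fun n hn g => by
    have := hid.conj n g⁻¹ hn
    rwa [inv_inv] at this⟩
  letI : Lattice (L ⧸ J) := qLattice hid
  have hle : ∀ x y : L ⧸ J, x ≤ y ↔ qle J x y := fun _ _ => Iff.rfl
  have : MulLeftMono (L ⧸ J) := ⟨fun z x y h => by
    induction x using QuotientGroup.induction_on with
    | H a =>
    induction y using QuotientGroup.induction_on with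
    | H b =>
    induction z using QuotientGroup.induction_on with
    | H c =>
    obtain ⟨j, hj, h⟩ := (qle_mk J a b).1 h
    refine (qle_mk J (c * a) (c * b)).2 ⟨j, hj, ?_⟩
    rw [mul_assoc]
    exact mul_le_mul_right h c⟩
  have : MulRightMono (L ⧸ J) := ⟨fun z x y h => by
    induction x using QuotientGroup.induction_on with
    | H a =>
    induction y using QuotientGroup.induction_on with
    | H b =>
    induction z using QuotientGroup.induction_on with
    | H c =>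
    obtain ⟨j, hj, h⟩ := (qle_mk J a b).1 h
    refine (qle_mk J (a * c) (b * c)).2 ⟨c⁻¹ * j * c, hid.conj j c hj, ?_⟩
    calc a * c ≤ b * j * c := mul_le_mul_left h c
      _ = b * c * (c⁻¹ * j * c) := by group⟩
  let ψ : G →* L ⧸ J := (QuotientGroup.mk' J).comp φ
  have hψ : ∀ g, ψ g = (QuotientGroup.mk (φ g) : L ⧸ J) := fun _ => rfl
  have hord : ∀ a b : G, ψ a ≤ ψ b ↔ a ≤ b := by
    intro a b
    rw [hle, hψ, hψ, qle_mk]
    constructor
    · rintro ⟨j, hj, h⟩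
      have h4 : φ (b⁻¹ * a) ≤ j := by
        have := mul_le_mul_right h (φ b)⁻¹
        rw [inv_mul_cancel_left] at this
        rwa [map_mul, map_inv]
      have h5 : b⁻¹ * a ≤ 1 := hJ.prop.2 _ j hj h4
      have h6 := mul_le_mul_right h5 b
      rwa [mul_inv_cancel_left, mul_one] at h6
    · intro h
      exact ⟨1, J.one_mem, by rw [mul_one]; exact (hφ a b).2 h⟩
  have hsup : ∀ (S : Set G) (s : G), IsLUB S s → IsLUB (ψ '' S) (ψ s) := by
    intro S s hs
    constructor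
    · rintro _ ⟨a, ha, rfl⟩
      exact (hord a s).2 (hs.1 ha)
    · intro x hx
      induction x using QuotientGroup.induction_on with
      | H f =>
      rw [hle, hψ, qle_mk]
      apply sup_preserved hφ hd hJ hs f
      intro a ha
      have h1 : ψ a ≤ (QuotientGroup.mk f : L ⧸ J) := hx ⟨a, ha, rfl⟩
      rw [hle, hψ, qle_mk] at h1
      exact h1
  refine ⟨L ⧸ J, inferInstance, inferInstance, inferInstance, inferInstance, ψ, ?_, hord, hsup, ?_⟩
  · intro a b h
    exact le_antisymm ((hord a b).1 h.le) ((hord b a).1 h.ge)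
  · intro S s hs
    have h1 : IsLUB S⁻¹ s⁻¹ := isLUB_inv'.2 hs
    have h2 := hsup _ _ h1
    have h3 : ψ '' S⁻¹ = (ψ '' S)⁻¹ := by
      ext x
      constructor
      · rintro ⟨a, ha, rfl⟩
        exact ⟨a⁻¹, ha, map_inv ψ a⟩
      · rintro ⟨a, ha, hax⟩
        exact ⟨a⁻¹, by simpa using ha, by rw [map_inv, hax, inv_inv]⟩
    rw [h3, map_inv] at h2
    exact isLUB_inv'.1 h2

/-- If `G` order-embeds in some lattice-ordered group, then it order-embeds in one so that all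
existing suprema and infima are preserved. -/
theorem hasPreservingEmbedding_of_embedding (hφ : ∀ a b : G, φ a ≤ φ b ↔ a ≤ b) :
    HasPreservingEmbedding G := by
  let D : Subgroup L := domSubgroup φ
  letI : Lattice D := Subtype.lattice (fun {a b} ha hb => domSubgroup_sup φ ha hb)
    (fun {a b} ha hb => domSubgroup_inf φ ha hb)
  have : MulLeftMono D := ⟨fun c a b hab => by
    change (c : L) * a ≤ c * b
    exact mul_le_mul_right (show (a : L) ≤ b from hab) _⟩
  have : MulRightMono D := ⟨fun c a b hab => by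
    change (a : L) * c ≤ b * c
    exact mul_le_mul_left (show (a : L) ≤ b from hab) _⟩
  have hmem : ∀ g, φ g ∈ D := fun g =>
    ⟨Dom.base φ g, by rw [← map_inv]; exact Dom.base φ g⁻¹⟩
  let φ' : G →* D := φ.codRestrict D hmem
  have hφ' : ∀ a b : G, φ' a ≤ φ' b ↔ a ≤ b := fun a b => hφ a b
  apply hasPreservingEmbedding_of_dom (φ := φ') hφ'
  intro h
  obtain ⟨l, hl⟩ := h.2.1
  refine ⟨l, fun x hx => ?_⟩
  have h1 := hl (x : L) hx
  have h2 : ((l.map fun g => (φ' g)⁻¹ * x * φ' g).prod : D) =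
      (l.map fun g => (φ g)⁻¹ * (x : L) * φ g).prod := by
    induction l with
    | nil => rfl
    | cons a t ih =>
      simp only [List.map_cons, List.prod_cons, Subgroup.coe_mul]
      rw [show ((List.map (fun g => (φ' g)⁻¹ * x * φ' g) t).prod : L) = _ from ?_]
      · rfl
      · clear h1 hl ih
        induction t with
        | nil => rfl
        | cons a t ih =>
          simp only [List.map_cons, List.prod_cons, Subgroup.coe_mul, ih]
          rfl
  change ((h⁻¹ * x * h : D) : L) ≤ _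
  rw [h2]
  exact h1

end Embedding

section OrderAut

variable {Ω : Type u} [LinearOrder Ω]

/-- The group of order automorphisms of a chain. -/
def OAut (Ω : Type u) [LinearOrder Ω] : Type u := Ω ≃o Ω

namespace OAut

instance : Group (OAut Ω) := inferInstanceAs (Group (Ω ≃o Ω))

/-- Evaluation at a point. -/
def ev (f : OAut Ω) (x : Ω) : Ω := (show Ω ≃o Ω from f) x

theorem ext' {f g : OAut Ω} (h : ∀ x, f.ev x = g.ev x) : f = g :=
  OrderIso.ext (funext h)

theorem ev_mul (f g : OAut Ω) (x : Ω) : (f * g).ev x = f.ev (g.ev x) := rfl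

theorem ev_mono (f : OAut Ω) {x y : Ω} (h : x ≤ y) : f.ev x ≤ f.ev y :=
  (show Ω ≃o Ω from f).monotone h

theorem ev_le_iff (f : OAut Ω) {x y : Ω} : f.ev x ≤ f.ev y ↔ x ≤ y :=
  (show Ω ≃o Ω from f).le_iff_le

theorem ev_inv_ev (f : OAut Ω) (x : Ω) : f⁻¹.ev (f.ev x) = x := by
  rw [← ev_mul, inv_mul_cancel]; rfl

theorem ev_ev_inv (f : OAut Ω) (x : Ω) : f.ev (f⁻¹.ev x) = x := by
  rw [← ev_mul, mul_inv_cancel]; rfl

/-- Pointwise maximum. -/
def osup (f g : OAut Ω) : OAut Ω :=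
  show Ω ≃o Ω from
  { toFun := fun x => f.ev x ⊔ g.ev x
    invFun := fun y => f⁻¹.ev y ⊓ g⁻¹.ev y
    left_inv := fun x => by
      change f⁻¹.ev (f.ev x ⊔ g.ev x) ⊓ g⁻¹.ev (f.ev x ⊔ g.ev x) = x
      rcases le_total (f.ev x) (g.ev x) with h | h
      · rw [sup_eq_right.2 h, ev_inv_ev]
        apply inf_eq_right.2
        rw [← f.ev_le_iff, ev_ev_inv]; exact h
      · rw [sup_eq_left.2 h, ev_inv_ev]
        apply inf_eq_left.2
        rw [← g.ev_le_iff, ev_ev_inv]; exact h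
    right_inv := fun y => by
      change f.ev (f⁻¹.ev y ⊓ g⁻¹.ev y) ⊔ g.ev (f⁻¹.ev y ⊓ g⁻¹.ev y) = y
      rcases le_total (f⁻¹.ev y) (g⁻¹.ev y) with h | h
      · rw [inf_eq_left.2 h, ev_ev_inv]
        apply sup_eq_left.2
        have := g.ev_mono h
        rwa [ev_ev_inv] at this
      · rw [inf_eq_right.2 h, ev_ev_inv]
        apply sup_eq_right.2
        have := f.ev_mono h
        rwa [ev_ev_inv] at this
    map_rel_iff' := fun {x y} => by
      change f.ev x ⊔ g.ev x ≤ f.ev y ⊔ g.ev y ↔ x ≤ y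
      constructor
      · intro h
        by_contra hxy
        rw [not_le] at hxy
        have h1 : f.ev y < f.ev x := lt_of_not_ge fun h' => not_le_of_gt hxy (f.ev_le_iff.1 h')
        have h2 : g.ev y < g.ev x := lt_of_not_ge fun h' => not_le_of_gt hxy (g.ev_le_iff.1 h')
        exact absurd h (not_le_of_gt (max_lt_max h1 h2))
      · intro h
        exact sup_le_sup (f.ev_mono h) (g.ev_mono h) }

/-- Pointwise minimum. -/
def oinf (f g : OAut Ω) : OAut Ω := (osup f⁻¹ g⁻¹)⁻¹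

theorem ev_osup (f g : OAut Ω) (x : Ω) : (osup f g).ev x = f.ev x ⊔ g.ev x := rfl

theorem ev_oinf (f g : OAut Ω) (x : Ω) : (oinf f g).ev x = f.ev x ⊓ g.ev x := by
  change f⁻¹⁻¹.ev x ⊓ g⁻¹⁻¹.ev x = _
  rw [inv_inv, inv_inv]

instance : Lattice (OAut Ω) where
  le := fun f g => ∀ x, f.ev x ≤ g.ev x
  le_refl := fun _ _ => le_rfl
  le_trans := fun _ _ _ h1 h2 x => (h1 x).trans (h2 x)
  le_antisymm := fun _ _ h1 h2 => ext' fun x => le_antisymm (h1 x) (h2 x)
  sup := osup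
  inf := oinf
  le_sup_left := fun _ _ _ => le_sup_left
  le_sup_right := fun _ _ _ => le_sup_right
  sup_le := fun _ _ _ h1 h2 x => sup_le (h1 x) (h2 x)
  inf_le_left := fun f g x => by
    change (oinf f g).ev x ≤ f.ev x
    rw [ev_oinf]; exact inf_le_left
  inf_le_right := fun f g x => by
    change (oinf f g).ev x ≤ g.ev x
    rw [ev_oinf]; exact inf_le_right
  le_inf := fun f g h h1 h2 x => by
    change f.ev x ≤ (oinf g h).ev x
    rw [ev_oinf]; exact le_inf (h1 x) (h2 x)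

theorem le_def (f g : OAut Ω) : f ≤ g ↔ ∀ x, f.ev x ≤ g.ev x := Iff.rfl

instance : MulLeftMono (OAut Ω) := ⟨fun h f g hfg x => by
  rw [ev_mul, ev_mul]
  exact h.ev_mono (hfg x)⟩

instance : MulRightMono (OAut Ω) := ⟨fun h f g hfg x => by
  change (f * h).ev x ≤ (g * h).ev x
  rw [ev_mul, ev_mul]
  exact hfg _⟩

end OAut

end OrderAut

section RightOrders

variable {G : Type u} [Group G]

/-- The underlying set of the lexicographic sum of the chains `(G, r')`, one for each right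
order `r` of a family, where `r' x y` means `r y⁻¹ x⁻¹`. -/
structure Pt (ι : Type u) (G : Type u) where
  /-- the index of the right order -/
  idx : ι
  /-- the point -/
  pt : G

/-- A total order on `Pt ι G`, given a total order on the index set. -/
@[reducible]
noncomputable def ptOrder {ι : Type u} [LinearOrder ι] (R : ι → G → G → Prop)
    (hR : ∀ i, IsRightOrder (R i)) : LinearOrder (Pt ι G) := by
  classical
  exact
  { le := fun p q => p.idx < q.idx ∨ (p.idx = q.idx ∧ R p.idx q.pt⁻¹ p.pt⁻¹)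
    le_refl := fun p => Or.inr ⟨rfl, (hR _).refl _⟩
    le_trans := by
      rintro ⟨i, x⟩ ⟨j, y⟩ ⟨k, z⟩ h1 h2
      dsimp only at h1 h2 ⊢
      rcases h1 with h1 | ⟨rfl, h1⟩
      · rcases h2 with h2 | ⟨rfl, h2⟩
        · exact Or.inl (h1.trans h2)
        · exact Or.inl h1
      · rcases h2 with h2 | ⟨rfl, h2⟩
        · exact Or.inl h2
        · exact Or.inr ⟨rfl, (hR _).trans _ _ _ h2 h1⟩
    le_antisymm := by
      rintro ⟨i, x⟩ ⟨j, y⟩ h1 h2
      dsimp only at h1 h2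
      rcases h1 with h1 | ⟨rfl, h1⟩
      · rcases h2 with h2 | ⟨rfl, h2⟩
        · exact absurd (h1.trans h2) (lt_irrefl _)
        · exact absurd h1 (lt_irrefl _)
      · rcases h2 with h2 | ⟨_, h2⟩
        · exact absurd h2 (lt_irrefl _)
        · have := (hR _).antisymm _ _ h1 h2
          rw [inv_inj] at this
          rw [this]
    le_total := by
      rintro ⟨i, x⟩ ⟨j, y⟩
      dsimp only
      rcases lt_trichotomy i j with h | rfl | h
      · exact Or.inl (Or.inl h)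
      · rcases (hR i).total y⁻¹ x⁻¹ with h | h
        · exact Or.inl (Or.inr ⟨rfl, h⟩)
        · exact Or.inr (Or.inr ⟨rfl, h⟩)
      · exact Or.inr (Or.inl h)
    toDecidableLE := Classical.decRel _ }

theorem exists_embedding_aux [PartialOrder G] [MulLeftMono G] [MulRightMono G]
    {ι : Type u} [LinearOrder ι] (R : ι → G → G → Prop) (hR : ∀ i, IsRightOrder (R i))
    (hle : ∀ a b : G, a ≤ b ↔ ∀ i, R i a b) :
    ∃ (L : Type u) (_ : Group L) (_ : Lattice L) (_ : MulLeftMono L) (_ : MulRightMono L)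
      (φ : G →* L), ∀ a b : G, φ a ≤ φ b ↔ a ≤ b := by
  classical
  letI : LinearOrder (Pt ι G) := ptOrder R hR
  have hpt : ∀ p q : Pt ι G, p ≤ q ↔ (p.idx < q.idx ∨ (p.idx = q.idx ∧ R p.idx q.pt⁻¹ p.pt⁻¹)) :=
    fun _ _ => Iff.rfl
  let act : G → Pt ι G → Pt ι G := fun g p => ⟨p.idx, g * p.pt⟩
  have hact : ∀ g p q, act g p ≤ act g q ↔ p ≤ q := by
    intro g p q
    rw [hpt, hpt]
    dsimp only [act]
    have key : R p.idx (g * q.pt)⁻¹ (g * p.pt)⁻¹ ↔ R p.idx q.pt⁻¹ p.pt⁻¹ := by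
      constructor
      · intro h
        have := (hR p.idx).mul_right _ _ g h
        have e1 : (g * q.pt)⁻¹ * g = q.pt⁻¹ := by group
        have e2 : (g * p.pt)⁻¹ * g = p.pt⁻¹ := by group
        rwa [e1, e2] at this
      · intro h
        have := (hR p.idx).mul_right _ _ g⁻¹ h
        rwa [← mul_inv_rev, ← mul_inv_rev] at this
    rw [key]
  let φ0 : G → OAut (Pt ι G) := fun g =>
    show Pt ι G ≃o Pt ι G from
    { toFun := act g
      invFun := act g⁻¹
      left_inv := fun p => by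
        change (⟨p.idx, g⁻¹ * (g * p.pt)⟩ : Pt ι G) = p
        rw [inv_mul_cancel_left]
      right_inv := fun p => by
        change (⟨p.idx, g * (g⁻¹ * p.pt)⟩ : Pt ι G) = p
        rw [mul_inv_cancel_left]
      map_rel_iff' := fun {p q} => hact g p q }
  have hev : ∀ g p, (φ0 g).ev p = act g p := fun _ _ => rfl
  let φ : G →* OAut (Pt ι G) := MonoidHom.mk' φ0 (fun a b => OAut.ext' fun p => by
    rw [OAut.ev_mul, hev, hev, hev]
    change (⟨p.idx, a * b * p.pt⟩ : Pt ι G) = ⟨p.idx, a * (b * p.pt)⟩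
    rw [mul_assoc])
  refine ⟨OAut (Pt ι G), inferInstance, inferInstance, inferInstance, inferInstance, φ, ?_⟩
  intro a b
  rw [OAut.le_def]
  constructor
  · intro h
    have h1 : b⁻¹ ≤ a⁻¹ := by
      rw [hle]
      intro i
      have h2 : act a ⟨i, 1⟩ ≤ act b ⟨i, 1⟩ := h ⟨i, 1⟩
      rw [hpt] at h2
      rcases h2 with h2 | ⟨_, h2⟩
      · exact absurd h2 (lt_irrefl _)
      · dsimp only [act] at h2
        rwa [mul_one, mul_one] at h2
    exact inv_le_inv_iff.1 h1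
  · intro h p
    change act a p ≤ act b p
    rw [hpt]
    refine Or.inr ⟨rfl, ?_⟩
    dsimp only [act]
    have h1 : (b * p.pt)⁻¹ ≤ (a * p.pt)⁻¹ := inv_le_inv_iff.2 (mul_le_mul_left h _)
    exact (hle _ _).1 h1 _

/-- A partially ordered group whose order is the intersection of right orders order-embeds in
a lattice-ordered group. -/
theorem exists_embedding [PartialOrder G] [MulLeftMono G] [MulRightMono G]
    (hG : IsIntersectionOfRightOrders G) :
    ∃ (L : Type u) (_ : Group L) (_ : Lattice L) (_ : MulLeftMono L) (_ : MulRightMono L)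
      (φ : G →* L), ∀ a b : G, φ a ≤ φ b ↔ a ≤ b := by
  classical
  obtain ⟨F, hF, hle⟩ := hG
  refine @exists_embedding_aux G _ _ _ _ F (linearOrderOfSTO WellOrderingRel)
    (fun i => i.1) (fun i => hF _ i.2) (fun a b => ?_)
  rw [hle]
  exact ⟨fun h i => h _ i.2, fun h r hr => h ⟨r, hr⟩⟩

end RightOrders

/-- Let `G` be a partially ordered group whose order is the intersection of right orders. Then
there is a lattice-ordered group `H` and an order-embedding `ψ : G → H` which preserves all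
existing suprema and infima of `G`. -/
theorem result (G : Type u) [Group G] [PartialOrder G] [MulLeftMono G] [MulRightMono G]
    (hG : IsIntersectionOfRightOrders G) :
    ∃ (H : Type u) (_ : Group H) (_ : Lattice H) (_ : MulLeftMono H) (_ : MulRightMono H)
      (ψ : G →* H), Function.Injective ψ ∧ (∀ a b : G, ψ a ≤ ψ b ↔ a ≤ b) ∧
        (∀ (S : Set G) (s : G), IsLUB S s → IsLUB (ψ '' S) (ψ s)) ∧
        (∀ (S : Set G) (s : G), IsGLB S s → IsGLB (ψ '' S) (ψ s)) := by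
  obtain ⟨L, _, _, _, _, φ, hφ⟩ := exists_embedding hG
  exact hasPreservingEmbedding_of_embedding hφ

end Pool.Agent.Results.MP_98d06d_al.SupInfPreservingEmbedding
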